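import Pool.Agent.helper17.MK.Spec
import Pool.Agent.helper22.MT.SC

/-!
# Row mk:PD
-/

set_option autoImplicit false

namespace Pool.Agent.MK

open Finset Real Pool.Agent.helper39.MT

theorem PD : PD_stmt := by
  intro h
  have hC := one_le_CHP
  refine ⟨CHP ^ h, by positivity, fun W R hR => ?_⟩
  have h0 : ∏ p : PS W R, (1 + (h : ℝ) / (((p : ℕ) : ℝ) - 1)) =
      ∏ p ∈ PS W R, (1 + (h : ℝ) / ((p : ℝ) - 1)) :=
    prod_coe_sort (PS W R) (fun p => (1 + (h : ℝ) / ((p : ℝ) - 1)))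
  have hx : ∀ p ∈ Nat.primesLE R, (0 : ℝ) ≤ 1 / ((p : ℝ) - 1) := by
    intro p hp
    have : (1 : ℝ) < p := by exact_mod_cast (Nat.mem_primesLE.1 hp).2.one_lt
    exact div_nonneg zero_le_one (by linarith)
  have hsub : PS W R ⊆ Nat.primesLE R := filter_subset _ _
  have hnn : ∀ p ∈ PS W R, (0 : ℝ) ≤ 1 + (h : ℝ) / ((p : ℝ) - 1) := by
    intro p hp
    have h1 : (h : ℝ) / ((p : ℝ) - 1) = h * (1 / ((p : ℝ) - 1)) := by ring
    have h2 := hx p (hsub hp)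
    rw [h1]
    positivity
  have h1 : ∏ p ∈ PS W R, (1 + (h : ℝ) / ((p : ℝ) - 1)) ≤
      (∏ p ∈ PS W R, (1 + 1 / ((p : ℝ) - 1))) ^ h := by
    rw [← prod_pow]
    refine prod_le_prod hnn fun p hp => ?_
    have hx1 := hx p (hsub hp)
    have := one_add_mul_le_pow (a := 1 / ((p : ℝ) - 1)) (by linarith) h
    rw [mul_one_div] at this
    exact this
  have h2 : ∏ p ∈ PS W R, (1 + 1 / ((p : ℝ) - 1)) ≤
      ∏ p ∈ Nat.primesLE R, (1 + 1 / ((p : ℝ) - 1)) := by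
    rw [← prod_sdiff hsub]
    refine le_mul_of_one_le_left (prod_nonneg fun p hp => by linarith [hx p (hsub hp)]) ?_
    have : ∏ p ∈ Nat.primesLE R \ PS W R, (1 : ℝ) ≤
        ∏ p ∈ Nat.primesLE R \ PS W R, (1 + 1 / ((p : ℝ) - 1)) :=
      prod_le_prod (fun p _ => zero_le_one) fun p hp => by
        linarith [hx p (sdiff_subset hp)]
    rwa [prod_const_one] at this
  have h3 := euler_upper R hR
  have h4 : 0 ≤ ∏ p ∈ PS W R, (1 + 1 / ((p : ℝ) - 1)) :=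
    prod_nonneg fun p hp => by linarith [hx p (hsub hp)]
  rw [h0, ← mul_pow]
  exact h1.trans (pow_le_pow_left₀ h4 (h2.trans h3) _)

end Pool.Agent.MK
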