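import Pool.Agent.helper17.MK.Spec

/-!
# Row mk:PN
-/

set_option autoImplicit false

namespace Pool.Agent.MK

open Finset Real

/-- `log (1 + x) ≤ x - x² / 2 + x³ / 3 - x⁴ / 4 + x⁵ / 5` at `x = 1 / 25` -/
theorem PN_log : Real.log (26 / 25) ≤ 0.0392208 := by
  have h1 : Real.log (26 / 25) = -Real.log (1 - 1 / 26) := by
    rw [← Real.log_inv]
    norm_num
  have h2 := Real.abs_log_sub_add_sum_range_le (x := 1 / 26) (by rw [abs_of_pos] <;> norm_num) 5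
  rw [h1]
  have h3 := (abs_le.1 h2).1
  rw [abs_of_pos (by norm_num : (0 : ℝ) < 1 / 26)] at h3
  norm_num [Finset.sum_range_succ] at h3 ⊢
  linarith

theorem PN_core (la lb lg : ℝ) (h1 : 1 / 2 - 1 / 10 ^ 6 ≤ la) (h2 : 37 / 152 - 1 / 10 ^ 6 ≤ lb)
    (h3 : 0 ≤ lg) (h4 : lg ≤ 0.0392208) :
    (1 + 1 / 10 ^ 7) ^ 6 * (2 / la * (1 - 1 / 6000 + 1 / 10 ^ 7) +
    1 / 2 * (2 / lb) ^ 2 * ((lg + 1 / 10 ^ 7) ^ 3 / 6)) ≤ (4 : ℝ) - 3 / 10 ^ 4 := by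
  have a1 : 2 / la ≤ 2 / (1 / 2 - 1 / 10 ^ 6) := by
    apply div_le_div_of_nonneg_left _ _ h1 <;> norm_num
  have a2 : 2 / lb ≤ 2 / (37 / 152 - 1 / 10 ^ 6) := by
    apply div_le_div_of_nonneg_left _ _ h2 <;> norm_num
  have a2' : 0 ≤ 2 / lb := by
    apply div_nonneg (by norm_num)
    refine le_trans ?_ h2
    norm_num
  have a3 : (2 / lb) ^ 2 ≤ (2 / (37 / 152 - 1 / 10 ^ 6)) ^ 2 := pow_le_pow_left₀ a2' a2 2
  have a4 : (lg + 1 / 10 ^ 7) ^ 3 ≤ (0.0392208 + 1 / 10 ^ 7) ^ 3 :=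
    pow_le_pow_left₀ (by positivity) (by linarith) 3
  have a5 : 2 / la * (1 - 1 / 6000 + 1 / 10 ^ 7) ≤
      2 / (1 / 2 - 1 / 10 ^ 6) * (1 - 1 / 6000 + 1 / 10 ^ 7) :=
    mul_le_mul_of_nonneg_right a1 (by norm_num)
  have a6 : 1 / 2 * (2 / lb) ^ 2 * ((lg + 1 / 10 ^ 7) ^ 3 / 6) ≤
      1 / 2 * (2 / (37 / 152 - 1 / 10 ^ 6)) ^ 2 * ((0.0392208 + 1 / 10 ^ 7) ^ 3 / 6) := by
    apply mul_le_mul
    · exact mul_le_mul_of_nonneg_left a3 (by norm_num)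
    · exact div_le_div_of_nonneg_right a4 (by norm_num)
    · positivity
    · positivity
  calc _ ≤ (1 + 1 / 10 ^ 7) ^ 6 * (2 / (1 / 2 - 1 / 10 ^ 6) * (1 - 1 / 6000 + 1 / 10 ^ 7) +
      1 / 2 * (2 / (37 / 152 - 1 / 10 ^ 6)) ^ 2 * ((0.0392208 + 1 / 10 ^ 7) ^ 3 / 6)) :=
        mul_le_mul_of_nonneg_left (add_le_add a5 a6) (by positivity)
    _ ≤ _ := by norm_num

theorem PN : PN_stmt := by
  intro la lb h1 h2
  exact PN_core la lb _ h1 h2 (Real.log_nonneg (by norm_num)) PN_log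

end Pool.Agent.MK
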