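import Pool.Agent.helper17.MK.Spec

/-!
# Row mk:RB
-/

set_option autoImplicit false

namespace Pool.Agent.MK

open Finset Real

theorem RB_mem {w z : ℝ} (hz : 0 ≤ z) {p : ℕ} :
    p ∈ RLS.PP w z ↔ (p : ℝ) ≤ z ∧ p.Prime ∧ w < (p : ℝ) := by
  unfold RLS.PP
  rw [Finset.mem_filter, Finset.mem_range, Nat.lt_succ_iff, Nat.le_floor_iff hz]

theorem RB_log {p : ℕ} (hp : p.Prime) : 0 ≤ Real.log (p : ℝ) :=
  Real.log_nonneg (by exact_mod_cast hp.one_le)

/-- the sets in the sum `RR` -/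
noncomputable def RB_A (w L : ℝ) : Finset (Finset ℕ) :=
  (RLS.PP w (Real.exp L)).powerset.filter
    (fun K : Finset ℕ => ∑ p ∈ K, Real.log (p : ℝ) ≤ L)

theorem RB_memA {w L : ℝ} {K : Finset ℕ} : K ∈ RB_A w L ↔
    (∀ p ∈ K, p.Prime ∧ w < (p : ℝ)) ∧ ∑ p ∈ K, Real.log (p : ℝ) ≤ L := by
  unfold RB_A
  rw [Finset.mem_filter, Finset.mem_powerset]
  constructor
  · rintro ⟨h1, h2⟩
    exact ⟨fun p hp => ((RB_mem (Real.exp_pos L).le).1 (h1 hp)).2, h2⟩
  · rintro ⟨h1, h2⟩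
    refine ⟨fun p hp => (RB_mem (Real.exp_pos L).le).2 ⟨?_, h1 p hp⟩, h2⟩
    have h3 : Real.log (p : ℝ) ≤ ∑ q ∈ K, Real.log (q : ℝ) :=
      Finset.single_le_sum (f := fun q : ℕ => Real.log (q : ℝ))
        (fun q hq => RB_log (h1 q hq).1) hp
    have h4 : (0 : ℝ) < p := by exact_mod_cast (h1 p hp).1.pos
    rw [← Real.log_le_iff_le_exp h4]
    exact h3.trans h2

theorem RB : RB_stmt := by
  intro w L hw hL
  have hRR : ∀ w L : ℝ, RR w L = ∑ K ∈ RB_A w L, ∏ p ∈ K, 1 / (p : ℝ) := fun _ _ => rfl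
  have h0 : (∅ : Finset ℕ) ∈ RB_A w L := by
    rw [RB_memA]
    refine ⟨fun p hp => absurd hp (Finset.notMem_empty p), ?_⟩
    rw [Finset.sum_empty]
    exact hL
  rw [hRR w L, ← Finset.add_sum_erase _ _ h0, Finset.prod_empty]
  congr 1
  simp_rw [hRR, Finset.mul_sum]
  rw [Finset.sum_sigma']
  symm
  refine Finset.sum_bij (fun x _ => insert x.1 x.2) ?_ ?_ ?_ ?_
  · rintro ⟨p, K⟩ hx
    rw [Finset.mem_sigma, RB_mem (Real.exp_pos L).le, RB_memA] at hx
    obtain ⟨⟨h1, h2, h3⟩, h4, h5⟩ := hx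
    simp only at h1 h2 h3 h4 h5
    have hpK : p ∉ K := fun h => lt_irrefl _ (h4 p h).2
    rw [Finset.mem_erase, RB_memA]
    refine ⟨Finset.insert_ne_empty _ _, ?_, ?_⟩
    · intro q hq
      rw [Finset.mem_insert] at hq
      rcases hq with rfl | hq
      · exact ⟨h2, h3⟩
      · exact ⟨(h4 q hq).1, h3.trans (h4 q hq).2⟩
    · rw [Finset.sum_insert hpK]
      linarith
  · rintro ⟨p, K⟩ hx ⟨p', K'⟩ hx' heq
    rw [Finset.mem_sigma, RB_memA] at hx hx'
    simp only at hx hx' heq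
    have hpK : ∀ q ∈ K, p < q := fun q h => by exact_mod_cast (hx.2.1 q h).2
    have hpK' : ∀ q ∈ K', p' < q := fun q h => by exact_mod_cast (hx'.2.1 q h).2
    have hpp : p = p' := by
      have h1 : p ∈ insert p' K' := heq ▸ Finset.mem_insert_self p K
      have h2 : p' ∈ insert p K := heq ▸ Finset.mem_insert_self p' K'
      rw [Finset.mem_insert] at h1 h2
      rcases h1 with h1 | h1
      · exact h1
      · rcases h2 with h2 | h2
        · exact h2.symm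
        · exact absurd (hpK' p h1) (not_lt.2 (hpK p' h2).le)
    subst hpp
    have hKK : K = K' := by
      rw [← Finset.erase_insert (fun h => lt_irrefl _ (hpK p h) : p ∉ K),
        ← Finset.erase_insert (fun h => lt_irrefl _ (hpK' p h) : p ∉ K'), heq]
    rw [hKK]
  · intro K hK
    rw [Finset.mem_erase, RB_memA] at hK
    obtain ⟨h1, h2, h3⟩ := hK
    have hne : K.Nonempty := Finset.nonempty_iff_ne_empty.2 h1
    have hm := K.min'_mem hne
    have hs : Real.log ((K.min' hne : ℕ) : ℝ) + ∑ q ∈ K.erase (K.min' hne), Real.log (q : ℝ) =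
        ∑ q ∈ K, Real.log (q : ℝ) :=
      Finset.add_sum_erase K (fun q : ℕ => Real.log (q : ℝ)) hm
    refine ⟨⟨K.min' hne, K.erase (K.min' hne)⟩, ?_, Finset.insert_erase hm⟩
    rw [Finset.mem_sigma, RB_mem (Real.exp_pos L).le, RB_memA]
    refine ⟨⟨?_, h2 _ hm⟩, ?_, ?_⟩
    · have h4 : (0 : ℝ) < ((K.min' hne : ℕ) : ℝ) := by exact_mod_cast (h2 _ hm).1.pos
      show ((K.min' hne : ℕ) : ℝ) ≤ _
      rw [← Real.log_le_iff_le_exp h4]
      have h5 : 0 ≤ ∑ q ∈ K.erase (K.min' hne), Real.log (q : ℝ) :=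
        Finset.sum_nonneg fun q hq => RB_log (h2 q (Finset.mem_of_mem_erase hq)).1
      linarith
    · intro q hq
      refine ⟨(h2 q (Finset.mem_of_mem_erase hq)).1, ?_⟩
      have h5 : K.min' hne ≤ q := K.min'_le q (Finset.mem_of_mem_erase hq)
      have h6 : K.min' hne ≠ q := fun h => (Finset.mem_erase.1 hq).1 h.symm
      exact_mod_cast lt_of_le_of_ne h5 h6
    · show ∑ q ∈ K.erase (K.min' hne), Real.log (q : ℝ) ≤ L - Real.log ((K.min' hne : ℕ) : ℝ)
      linarith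
  · rintro ⟨p, K⟩ hx
    rw [Finset.mem_sigma, RB_memA] at hx
    have hpK : p ∉ K := fun h => lt_irrefl _ (hx.2.1 p h).2
    show 1 / (p : ℝ) * ∏ q ∈ K, 1 / (q : ℝ) = ∏ q ∈ insert p K, 1 / (q : ℝ)
    rw [Finset.prod_insert hpK]

end Pool.Agent.MK
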