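import Pool.Agent.helper17.MK.Spec

/-!
# Row mk:SD
-/

set_option autoImplicit false

namespace Pool.Agent.MK

open Finset Real

theorem SD_prod (g g' : ℕ → ℝ) (P : Finset ℕ) (h : ∀ p ∈ P, 0 ≤ g' p ∧ g' p ≤ g p) :
    ∏ p ∈ P, (1 + g p) - ∏ p ∈ P, (1 + g' p) ≤ (∏ p ∈ P, (1 + g p)) * ∑ p ∈ P, (g p - g' p) := by
  induction P using Finset.induction_on with
  | empty => simp
  | insert a s ha ih =>
    have ih' := ih fun p hp => h p (Finset.mem_insert_of_mem hp)
    have h1 := h a (Finset.mem_insert_self a s)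
    have h2 : ∏ p ∈ s, (1 + g' p) ≤ ∏ p ∈ s, (1 + g p) := by
      refine Finset.prod_le_prod (fun p hp => ?_) fun p hp => ?_
      · have := h p (Finset.mem_insert_of_mem hp)
        linarith
      · have := h p (Finset.mem_insert_of_mem hp)
        linarith
    have h3 : 0 ≤ ∏ p ∈ s, (1 + g p) := by
      refine Finset.prod_nonneg fun p hp => ?_
      have := h p (Finset.mem_insert_of_mem hp)
      linarith
    rw [Finset.prod_insert ha, Finset.prod_insert ha, Finset.sum_insert ha]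
    have h4 : 0 ≤ g a := h1.1.trans h1.2
    have h5 := mul_le_mul_of_nonneg_left ih' (show (0 : ℝ) ≤ 1 + g a by linarith)
    have h6 : (g a - g' a) * ∏ p ∈ s, (1 + g' p) ≤
        (g a - g' a) * ((1 + g a) * ∏ p ∈ s, (1 + g p)) := by
      refine mul_le_mul_of_nonneg_left ?_ (by linarith)
      nlinarith [mul_nonneg h4 h3]
    linarith [h5, h6, mul_comm (g a - g' a) ((1 + g a) * ∏ p ∈ s, (1 + g p)),
      mul_add ((1 + g a) * ∏ p ∈ s, (1 + g p)) (g a - g' a) (∑ p ∈ s, (g p - g' p)),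
      mul_assoc (1 + g a) (∏ p ∈ s, (1 + g p)) (∑ p ∈ s, (g p - g' p)),
      mul_sub (1 + g a) (∏ p ∈ s, (1 + g p)) (∏ p ∈ s, (1 + g' p)),
      sub_mul (1 + g a) (1 + g' a) (∏ p ∈ s, (1 + g' p)),
      sub_mul (g a) (g' a) (∏ p ∈ s, (1 + g' p)),
      add_mul 1 (g a) (∏ p ∈ s, (1 + g' p)), add_mul 1 (g' a) (∏ p ∈ s, (1 + g' p))]

theorem SD : SD_stmt := by
  intro l g g' P hl hg
  have h1 : ∀ K ∈ P.powerset, ∏ p ∈ K, g' p ≤ ∏ p ∈ K, g p := by
    intro K hK
    have hKP := Finset.mem_powerset.1 hK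
    exact Finset.prod_le_prod (fun p hp => (hg p (hKP hp)).1) fun p hp => (hg p (hKP hp)).2
  have h2 : |Mn l g P - Mn l g' P| ≤ ∑ K ∈ P.powerset, (∏ p ∈ K, g p - ∏ p ∈ K, g' p) := by
    unfold Mn
    rw [← Finset.sum_sub_distrib]
    refine (Finset.abs_sum_le_sum_abs _ _).trans (Finset.sum_le_sum fun K hK => ?_)
    rw [← mul_sub, abs_mul, abs_of_nonneg (sub_nonneg.2 (h1 K hK))]
    have h3 := hl K (Finset.mem_powerset.1 hK)
    have h4 := sub_nonneg.2 (h1 K hK)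
    calc |l K| * (∏ p ∈ K, g p - ∏ p ∈ K, g' p) ≤ 1 * (∏ p ∈ K, g p - ∏ p ∈ K, g' p) :=
          mul_le_mul_of_nonneg_right h3 h4
      _ = _ := one_mul _
  refine h2.trans ?_
  rw [Finset.sum_sub_distrib, ← Finset.prod_one_add, ← Finset.prod_one_add]
  exact SD_prod g g' P hg

end Pool.Agent.MK
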